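import Pool.Agent.helper78.FS.All

namespace Pool.Agent.Results.MP_55808c_co.SiamesePlaces

/-- For all `ε > 0` and `N` there is `r₀` such that for every `r ≥ r₀` and every colouring `c` of
the sphere of radius `r` with 7 colours in which no two points at a distance in `[1 - ε, 1 + ε]`
have the same colour there are `N` points `p i` of the sphere, pairwise at distance at least `N`,
at each of which the relation (same colour and distance `< 1`) is not transitive. -/
theorem result : ∀ ε : ℝ, 0 < ε → ∀ N : ℕ, ∃ r₀ : ℝ, ∀ r : ℝ, r₀ ≤ r →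
    ∀ c : EuclideanSpace ℝ (Fin 3) → Fin 7,
      (∀ x y : EuclideanSpace ℝ (Fin 3), ‖x‖ = r → ‖y‖ = r → 1 - ε ≤ dist x y →
        dist x y ≤ 1 + ε → c x ≠ c y) →
      ∃ p : Fin N → EuclideanSpace ℝ (Fin 3),
        (∀ i, ‖p i‖ = r ∧ ∃ x z : EuclideanSpace ℝ (Fin 3), ‖x‖ = r ∧ ‖z‖ = r ∧
          c x = c (p i) ∧ c z = c (p i) ∧ dist x (p i) < 1 ∧ dist (p i) z < 1 ∧ 1 < dist x z) ∧
        ∀ i j, i ≠ j → (N : ℝ) ≤ dist (p i) (p j) := by
  intro ε hε N
  obtain ⟨r₀, h⟩ := Pool.Agent.helper78.FS.Main ε hε N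
  exact ⟨r₀, fun r hr c hc => h r hr c hc⟩

end Pool.Agent.Results.MP_55808c_co.SiamesePlaces
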